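import Pool.Agent.H522R3.UT.Main
import Pool.Agent.H522R3.UT.T1
import Pool.Agent.H522R3.UT.T2
import Pool.Agent.H522R3.UT.T4
import Pool.Agent.H522R3.UT.T5
import Pool.Agent.H522R3.UT.T6
import Pool.Agent.H522R3.UT.T7
import Pool.Agent.H935R3.PSH.T8
import Pool.Agent.H522R3.UT.T9

/-!
# MP_725b87, Q1: a plurisubharmonic function has a C² upper test function at almost every point

For every domain Ω in complex n-space and every plurisubharmonic function φ on Ω, not identically
-∞, the set of points of Ω at which φ has no differential test from above has Lebesgue measure zero.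
-/

set_option autoImplicit false

open Set MeasureTheory

namespace Pool.Agent.Results.MP_725b87_an.LebesgueNull

/-- complex n-space with its Hermitian norm -/
abbrev Cn (n : ℕ) : Type := EuclideanSpace ℂ (Fin n)

/-- The point z + e^{iθ} w on the boundary circle of the complex disc z + D w. -/
noncomputable def circ {n : ℕ} (z w : Cn n) (θ : ℝ) : Cn n :=
  z + Complex.exp ((θ : ℂ) * Complex.I) • w

/-- Plurisubharmonic functions on an open set Ω, with values in [-∞, ∞).  The function is upper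
semicontinuous on Ω and, for every closed complex disc {z + ζ w, |ζ| ≤ 1} contained in Ω, the
value at the centre z is at most the mean over the boundary circle.  The mean of an upper
semicontinuous function is the infimum of the means of its continuous majorants. -/
def IsPSH {n : ℕ} (Ω : Set (Cn n)) (φ : Cn n → EReal) : Prop :=
  (∀ z ∈ Ω, φ z ≠ ⊤) ∧ UpperSemicontinuousOn φ Ω ∧
  ∀ z w : Cn n, (∀ ζ : ℂ, ‖ζ‖ ≤ 1 → z + ζ • w ∈ Ω) →
    ∀ h : ℝ → ℝ, Continuous h → (∀ θ ∈ Icc 0 (2 * Real.pi), φ (circ z w θ) ≤ (h θ : EReal)) →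
      φ z ≤ (((2 * Real.pi)⁻¹ * ∫ θ in (0 : ℝ)..(2 * Real.pi), h θ : ℝ) : EReal)

/-- A differential test from above for φ at z: a function q of class C^2 on an open neighbourhood
V ⊆ Ω of z with (φ - q)(z) = sup over V of (φ - q). -/
def HasUpperTest {n : ℕ} (Ω : Set (Cn n)) (φ : Cn n → EReal) (z : Cn n) : Prop :=
  ∃ (V : Set (Cn n)) (q : Cn n → ℝ), IsOpen V ∧ V ⊆ Ω ∧ z ∈ V ∧ ContDiffOn ℝ 2 q V ∧
    ∀ y ∈ V, φ y - (q y : EReal) ≤ φ z - (q z : EReal)

/-- The exceptional set E(φ). -/
def exceptional {n : ℕ} (Ω : Set (Cn n)) (φ : Cn n → EReal) : Set (Cn n) :=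
  {z | z ∈ Ω ∧ ¬ HasUpperTest Ω φ z}

/-- Q1: for every domain Ω (bounded pseudoconvex or not) and every plurisubharmonic φ on Ω, not
identically -∞, the exceptional set E(φ) has Lebesgue measure zero. -/
theorem result (n : ℕ) (Ω : Set (Cn n)) (hΩ : IsOpen Ω) (hconn : IsConnected Ω)
    (φ : Cn n → EReal) (hφ : IsPSH Ω φ) (hne : ∃ z ∈ Ω, φ z ≠ ⊥) :
    volume (exceptional Ω φ) = 0 :=
  Pool.Agent.H522R3.UT.null_main Pool.Agent.H522R3.UT.T2_proof
    (Pool.Agent.H522R3.UT.T3_of Pool.Agent.H522R3.UT.T1_proof) Pool.Agent.H522R3.UT.T4_proof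
    Pool.Agent.H522R3.UT.T5_proof Pool.Agent.H522R3.UT.T6p.T6_proof Pool.Agent.H522R3.UT.T7_proof
    Pool.Agent.H935R3.PSH.T8_proof Pool.Agent.H522R3.UT.T9_proof Ω φ hΩ hconn.isPreconnected hφ hne

end Pool.Agent.Results.MP_725b87_an.LebesgueNull
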